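import Pool.Agent.Helper2.GLM.Log

/-!
# The Lie algebra of one block: the special linear Lie algebra
-/

set_option autoImplicit false
set_option linter.unusedSectionVars false

namespace Pool.Agent.Helper2.GLM

open Module Finset Pool.Agent.Y126.JB Pool.Agent.Y126.MU Pool.Agent.V1141.OF
  Pool.Agent.TH118.SG Pool.Agent.Y130 Pool.Agent.Helper86.LT Pool.Agent.Helper2.MU
  Pool.Agent.TH125.Gal
open Pool.Agent.H204R3.CM Pool.Agent.H204R3.SP Pool.Agent.H204R3.GP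

variable {k : Type} [Field k] [CharZero k] [IsAlgClosed k] {I : Type} [Fintype I]
  [DecidableEq I] {V : I → Type} [∀ i, AddCommGroup (V i)] [∀ i, Module k (V i)]
  [∀ i, FiniteDimensional k (V i)] {M : Type} [AddCommGroup M] [Module k M]
  [FiniteDimensional k M] {Γ : Type} [Group Γ] (ρ : ∀ i, Representation k Γ (V i))
  (τ : Representation k Γ M) (χ : Γ →* k) (wt : I → ℤ) (j : k →+* ℂ) (m : ℤ)

/-- **The block theorem.** -/
theorem blockA {i : I} {γ φ₀ F : Γ} {q : ℕ}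
    (hF : ‖j (χ F)‖ ≠ 1)
    (hV : ∀ i a, Module.End.HasEigenvalue (ρ i F) a → ‖j a‖ ^ 2 = ‖j (χ F)‖ ^ wt i)
    (hM : ∀ a, Module.End.HasEigenvalue (τ F) a → ‖j a‖ ^ 2 = ‖j (χ F)‖ ^ m)
    (hγ1 : IsNilpotent (ρ i γ - 1)) (hγ2 : (ρ i γ - 1) ^ (finrank k (V i) - 1) ≠ 0)
    (hγ3 : ∀ i', i' ≠ i → ρ i' γ = 1) (hγ4 : τ γ = 1)
    (hq : 2 ≤ q) (hφγ : ρ i φ₀ * ρ i γ = ρ i γ ^ q * ρ i φ₀)
    (hV' : ∀ i', i' ≠ i → ∀ a, Module.End.HasEigenvalue (ρ i' φ₀) a →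
      ‖j a‖ ^ 2 = ‖j (χ φ₀)‖ ^ wt i')
    (hM' : ∀ a, Module.End.HasEigenvalue (τ φ₀) a → ‖j a‖ ^ 2 = ‖j (χ φ₀)‖ ^ m)
    (hdet : ‖j (LinearMap.det (ρ i φ₀))‖ ^ 2 = ‖j (χ φ₀)‖ ^ (wt i * (finrank k (V i) : ℤ)))
    (hns : finrank k (V i) ≤ 2 ∨ ∀ ω : V i →ₗ[k] V i →ₗ[k] k,
      (∀ g, ∃ c : k, ∀ u v, ω (ρ i g u) (ρ i g v) = c * ω u v) → ω = 0) :
    ∃ (d : ℕ) (b : Basis (Fin d) k (V i)), ∀ x y, x ≠ y →
      (∃ X ∈ lieA ρ τ i, ∀ z, X (b z) = if z = x then b y else 0) ∧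
      ∃ X ∈ lieA ρ τ i, ∀ z, X (b z) =
        (if z = x then b z else 0) - (if z = y then b z else 0) := by
  -- the dimension
  have hpos : 0 < finrank k (V i) := by
    rw [Module.finrank_pos_iff_exists_ne_zero]
    by_contra hcon
    push Not at hcon
    apply hγ2
    refine LinearMap.ext fun v => ?_
    rw [hcon v, map_zero, map_zero]
  obtain ⟨D, hdim⟩ : ∃ D, finrank k (V i) = D + 1 := ⟨finrank k (V i) - 1, by omega⟩
  rw [hdim, Nat.add_sub_cancel] at hγ2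
  have hM0 := pow_top hγ1 hdim
  obtain ⟨e, he⟩ : ∃ e, e = lg k (ρ i γ - 1) (D + 1) := ⟨_, rfl⟩
  obtain ⟨W, hW, hcomm, hlg⟩ := lg_eq (K := k) (ρ i γ - 1) hM0
  rw [← he] at hlg
  have henil : IsNilpotent e := ⟨D + 1, by rw [hlg, hcomm.mul_pow, hM0, zero_mul]⟩
  have heD : e ^ D ≠ 0 := by
    intro h0
    apply hγ2
    rw [hlg, hcomm.mul_pow] at h0
    exact (hW.pow D).mul_left_eq_zero.1 h0
  obtain ⟨v, hv⟩ : ∃ v, (e ^ D) v ≠ 0 := by
    by_contra hcon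
    push Not at hcon
    exact heD (LinearMap.ext fun v => hcon v)
  have hφe : ρ i φ₀ * e = (q : k) • (e * ρ i φ₀) := by
    rw [he]
    exact lg_frob hM0 hφγ
  have hinj : Function.Injective (ρ i φ₀) := by
    intro x y hxy
    have h1 := congrArg (ρ i φ₀⁻¹) hxy
    rw [← Module.End.mul_apply, ← Module.End.mul_apply, ← map_mul, inv_mul_cancel, map_one] at h1
    exact h1
  have hqi : ∀ l : ℕ, l ≠ 0 → (q : k) ^ l ≠ 1 := by
    intro l hl h1
    have h2 : (q ^ l : ℕ) = 1 := by exact_mod_cast h1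
    have h3 : 1 < q ^ l := Nat.one_lt_pow hl (by omega)
    omega
  obtain ⟨u, lam, hlam, hφu, hu⟩ := exists_gen henil hdim hv hφe hinj hqi
  obtain ⟨h, f, hp⟩ := exists_prin henil hdim hu
  obtain ⟨w, hw⟩ : ∃ w : ℕ → V i, w = fun l => (e ^ l) u := ⟨_, rfl⟩
  rw [← hw] at hp
  have hφw : ∀ l, ρ i φ₀ (w l) = (lam * (q : k) ^ l) • w l := by
    intro l
    induction l with
    | zero =>
      rw [hw, pow_zero, mul_one]
      exact hφu
    | succ l ih =>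
      rw [← hp.e_w, ← Module.End.mul_apply, hφe, LinearMap.smul_apply, Module.End.mul_apply, ih,
        map_smul, smul_smul, pow_succ]
      congr 1
      ring
  -- the elements `e`, `h`, `f`
  have heL : e ∈ lieA ρ τ i := by
    rw [he]
    exact lgA_mem ρ τ hM0 hγ3 hγ4
  have hbr : ∀ Y ∈ lieA ρ τ i, ∀ Z ∈ lieA ρ τ i, Y * Z - Z * Y ∈ lieA ρ τ i :=
    fun Y hY Z hZ => lieA_bracket ρ τ i hY hZ
  have hhL : h ∈ lieA ρ τ i := h_memA ρ τ χ wt j m hp hdim hF hV hM hV' hM' hq hlam hφw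
    (det_norm j hp hdim hφw (chi_pos χ j) hdet)
  have hef : e * f - f * e = h := hp.ef.symm
  have hfL : f ∈ lieA ρ τ i := by
    refine lieA_opp ρ τ i e f (-2) heL (by rw [hef]; exact hhL) ?_ (by norm_num)
    rw [hef]
    exact hp.hf
  obtain ⟨b, hb⟩ := hp.exists_basis hdim
  obtain ⟨ω, hωe, hωh, hωf, hωnd⟩ := exists_form hp hb
  have hne : D ≤ 1 ∨ ¬ lieA ρ τ i ≤ Sim ω := by
    rcases hns with h1 | h1
    · left
      omega
    · right
      intro hle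
      have h2 : ω = 0 := by
        refine h1 ω fun g => ?_
        exact sim_all hp hωe hωh hωnd heL hhL hfL (g := ρ i g) (g' := ρ i g⁻¹)
          (by rw [← map_mul, mul_inv_cancel, map_one]) (fun X hX => lieA_conj ρ τ i g hX) hle
      apply hp.ne_zero (Nat.zero_le D)
      refine hωnd _ fun v => ?_
      rw [h2, LinearMap.zero_apply, LinearMap.zero_apply]
  have hfull : ∀ x y : ℕ, x ≤ D → y ≤ D → x ≠ y → Has (lieA ρ τ i) D w x y :=
    fun x y hx hy hxy => full hp hωe hωh hωf hωnd hbr heL hhL hfL hne hx hy hxy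
  refine ⟨D + 1, b, fun x y hxy => ?_⟩
  have hxy' : (x : ℕ) ≠ y := fun h1 => hxy (Fin.ext h1)
  have hx : (x : ℕ) ≤ D := by omega
  have hy : (y : ℕ) ≤ D := by omega
  have h1 := hfull x y hx hy hxy'
  have h2 := hfull y x hy hx (Ne.symm hxy')
  constructor
  · obtain ⟨X, hX, hXw⟩ := h1
    refine ⟨X, hX, fun z => ?_⟩
    rw [hb, hXw z (by omega), hb]
    by_cases h3 : z = x
    · rw [if_pos h3, if_pos (by rw [h3])]
    · rw [if_neg h3, if_neg (fun h4 => h3 (Fin.ext h4))]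
  · obtain ⟨X, hX, hXw⟩ := has_diag hbr hx hy h1 h2
    refine ⟨X, hX, fun z => ?_⟩
    rw [hb, hXw z (by omega)]
    congr 1
    · by_cases h3 : z = x
      · rw [if_pos h3, if_pos (by rw [h3])]
      · rw [if_neg h3, if_neg (fun h4 => h3 (Fin.ext h4))]
    · by_cases h3 : z = y
      · rw [if_pos h3, if_pos (by rw [h3])]
      · rw [if_neg h3, if_neg (fun h4 => h3 (Fin.ext h4))]

end Pool.Agent.Helper2.GLM
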