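import Pool.Agent.Helper2.MU.Fn

/-!
# Algebras of functions on a chain which are stable under the second difference operator

`A` is a unital algebra of functions on `{0, …, D - 1}` which is stable under the operator
`r ↦ κ (i - 1) r (i - 1) + κ (i + 1) r (i + 1) - 2 κ i r i`, `κ i = (i + 1) (D - i)`.
If some function in `A` is not symmetric then `A` contains all functions.
-/

set_option autoImplicit false
set_option linter.unusedSectionVars false

namespace Pool.Agent.Helper2.GLM

open Finset Pool.Agent.Helper2.MU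

variable {K : Type*} [Field K] [CharZero K]

/-- the second difference operator -/
def tp (D : ℕ) (r : ℕ → K) (i : ℕ) : K :=
  (if i = 0 then 0 else kap K D (i - 1) * r (i - 1)) + kap K D (i + 1) * r (i + 1) -
    2 * (kap K D i * r i)

theorem kap_rev {D i : ℕ} (hi : i < D) : kap K D (D - 1 - i) = kap K D i := by
  unfold kap
  have h1 : ((D - 1 - i : ℕ) : K) = (D : K) - 1 - i := by
    rw [Nat.cast_sub (by omega), Nat.cast_sub (by omega), Nat.cast_one]
  rw [h1]
  ring

theorem kap_top (D : ℕ) : kap K D D = 0 := by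
  unfold kap
  rw [sub_self, mul_zero]

section

variable (D : ℕ) (A : Subalgebra K (ℕ → K)) (hT : ∀ r ∈ A, tp D r ∈ A)
  (hc : ∀ r ∈ A, ∀ r' : ℕ → K, (∀ i, i < D → r i = r' i) → r' ∈ A)

include hT in
/-- the first value -/
theorem ends_ne (h : ∃ r ∈ A, ∃ i, i < D ∧ r i ≠ r (D - 1 - i)) : ∃ r ∈ A, r 0 ≠ r (D - 1) := by
  classical
  have h' : ∃ i, ∃ r ∈ A, i < D ∧ r i ≠ r (D - 1 - i) := by
    obtain ⟨r, hr, i, h1⟩ := h
    exact ⟨i, r, hr, h1⟩
  obtain ⟨r, hr, hi, hne⟩ := Nat.find_spec h'
  have hmin : ∀ j, j < Nat.find h' → ∀ r ∈ A, j < D → r j = r (D - 1 - j) := by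
    intro j hj r hr hjD
    by_contra hcon
    exact Nat.find_min h' hj ⟨r, hr, hjD, hcon⟩
  obtain ⟨j, hj⟩ : ∃ j, j = Nat.find h' := ⟨_, rfl⟩
  rw [← hj] at hi hne hmin
  rcases Nat.eq_zero_or_pos j with h0 | h0
  · refine ⟨r, hr, ?_⟩
    rw [h0] at hne
    exact hne
  · exfalso
    obtain ⟨l, rfl⟩ : ∃ l, j = l + 1 := ⟨j - 1, by omega⟩
    have h1 := hmin l (by omega) _ (hT r hr) (by omega)
    have h2 := hmin l (by omega) r hr (by omega)
    have h3 : D - 1 - l = D - 1 - (l + 1) + 1 := by omega
    unfold tp at h1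
    rw [if_neg (show ¬ D - 1 - l = 0 by omega), kap_rev (show l < D by omega), ← h2] at h1
    rw [show D - 1 - l - 1 = D - 1 - (l + 1) by omega, kap_rev hi] at h1
    apply hne
    have h4 : (if l = 0 then 0 else kap K D (l - 1) * r (l - 1)) =
        kap K D (D - 1 - l + 1) * r (D - 1 - l + 1) := by
      by_cases hl : l = 0
      · rw [if_pos hl, hl, show D - 1 - 0 + 1 = D by omega, kap_top, zero_mul]
      · rw [if_neg hl, hmin (l - 1) (by omega) r hr (by omega),
          show D - 1 - l + 1 = D - 1 - (l - 1) by omega, kap_rev (show l - 1 < D by omega)]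
    rw [h4] at h1
    have h5 : kap K D (l + 1) * (r (l + 1) - r (D - 1 - (l + 1))) = 0 := by
      linear_combination h1
    exact sub_eq_zero.1 ((mul_eq_zero.1 h5).resolve_left (kap_ne hi))

/-- all functions of `A` have the same value at `i` and `0` -/
def Eqv (i : ℕ) : Prop := ∀ r ∈ A, r i = r 0

variable {A} in
open Classical in
/-- the idempotent of the block of `0` -/
theorem exists_idem : ∃ b ∈ A, ∀ i, i < D → b i = if Eqv A i then 1 else 0 := by
  have h1 : ∀ i, ¬ Eqv A i → ∃ s ∈ A, s i = 0 ∧ ∀ j, Eqv A j → s j = 1 := by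
    intro i hi
    unfold Eqv at hi
    push Not at hi
    obtain ⟨r, hr, hne⟩ := hi
    have hne' : r 0 - r i ≠ 0 := sub_ne_zero.2 (Ne.symm hne)
    refine ⟨(r 0 - r i)⁻¹ • (r - algebraMap K (ℕ → K) (r i)),
      A.smul_mem (A.sub_mem hr (A.algebraMap_mem _)) _, ?_, fun j hj => ?_⟩
    · rw [Pi.smul_apply, Pi.sub_apply, Pi.algebraMap_apply, Algebra.algebraMap_self,
        RingHom.id_apply, sub_self, smul_zero]
    · rw [Pi.smul_apply, Pi.sub_apply, Pi.algebraMap_apply, Algebra.algebraMap_self,
        RingHom.id_apply, hj r hr, smul_eq_mul, inv_mul_cancel₀ hne']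
  choose! s hs h0 h2 using h1
  refine ⟨∏ i ∈ (range D).filter (fun i => ¬ Eqv A i), s i,
    A.prod_mem fun i hi => hs i (mem_filter.1 hi).2, fun i hi => ?_⟩
  rw [Finset.prod_apply]
  by_cases h : Eqv A i
  · rw [if_pos h]
    exact Finset.prod_eq_one fun j hj => h2 j (mem_filter.1 hj).2 i h
  · rw [if_neg h]
    exact Finset.prod_eq_zero (mem_filter.2 ⟨mem_range.2 hi, h⟩) (h0 i h)

variable {A D}

/-- the coefficients as integers -/
def kz (D i : ℕ) : ℤ := ((i : ℤ) + 1) * ((D : ℤ) - i)

theorem kz_cast (D i : ℕ) : ((kz D i : ℤ) : K) = kap K D i := by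
  unfold kz kap
  push_cast
  ring

include hT in
open Classical in
theorem block_eq (hD : 2 ≤ D) {i : ℕ} (hi : i < D) (hi0 : i ≠ 0) (hE : Eqv A i) :
    kz D (i - 1) * (if Eqv A (i - 1) then 1 else 0) +
      (if i + 1 < D ∧ Eqv A (i + 1) then kz D (i + 1) else 0) - 2 * kz D i =
    kz D 1 * (if Eqv A 1 then 1 else 0) - 2 * kz D 0 := by
  obtain ⟨b, hb, hb'⟩ := exists_idem D (A := A)
  have h0 : Eqv A 0 := fun _ _ => rfl
  have h1 := hE _ (hT b hb)
  unfold tp at h1
  rw [if_neg hi0, if_pos rfl, hb' i hi, if_pos hE, hb' 0 (by omega), if_pos h0, zero_add, zero_add,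
    hb' 1 (by omega), hb' (i - 1) (by omega)] at h1
  have h2 : kap K D (i + 1) * b (i + 1) =
      (((if i + 1 < D ∧ Eqv A (i + 1) then kz D (i + 1) else 0 : ℤ)) : K) := by
    by_cases h3 : i + 1 < D
    · rw [hb' (i + 1) h3]
      by_cases h4 : Eqv A (i + 1)
      · rw [if_pos h4, if_pos ⟨h3, h4⟩, kz_cast, mul_one]
      · rw [if_neg h4, if_neg (fun h => h4 h.2), mul_zero, Int.cast_zero]
    · rw [if_neg (fun h => h3 h.1), show i + 1 = D by omega, kap_top, zero_mul, Int.cast_zero]
  rw [h2] at h1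
  obtain ⟨y, hy⟩ : ∃ y : ℤ, y = (if i + 1 < D ∧ Eqv A (i + 1) then kz D (i + 1) else 0) :=
    ⟨_, rfl⟩
  rw [← hy] at h1 ⊢
  have h5 : ((kz D (i - 1) * (if Eqv A (i - 1) then 1 else 0) +
      y - 2 * kz D i : ℤ) : K) =
    ((kz D 1 * (if Eqv A 1 then 1 else 0) - 2 * kz D 0 : ℤ) : K) := by
    have h6 : ∀ (P : Prop) [Decidable P], ((if P then (1 : ℤ) else 0 : ℤ) : K) =
        if P then 1 else 0 := fun P _ => by
      by_cases hP : P
      · rw [if_pos hP, if_pos hP, Int.cast_one]
      · rw [if_neg hP, if_neg hP, Int.cast_zero]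
    rw [Int.cast_sub, Int.cast_add, Int.cast_mul, Int.cast_mul, Int.cast_sub, Int.cast_mul,
      Int.cast_mul, kz_cast, kz_cast, kz_cast, kz_cast, h6, h6]
    push_cast
    linear_combination h1
  exact_mod_cast h5

include hT in
/-- The block of `0`. -/
theorem block_zero (hne : ¬ Eqv A (D - 1)) :
    (∀ i, i < D → Eqv A i → i = 0) ∨ (D = 6 ∧ Eqv A 2 ∧ Eqv A 3) := by
  classical
  have h0 : Eqv A 0 := fun _ _ => rfl
  have hD : 2 ≤ D := by
    by_contra hcon
    apply hne
    rw [show D - 1 = 0 by omega]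
    exact h0
  have hk0 : kz D 0 = D := by
    unfold kz
    push_cast
    ring
  by_cases hE1 : Eqv A 1
  · exfalso
    have key : ∀ i, i < D → Eqv A i ∧ (i + 1 < D → Eqv A (i + 1)) := by
      intro i
      induction i with
      | zero => exact fun _ => ⟨h0, fun _ => hE1⟩
      | succ i ih =>
        intro hi
        obtain ⟨h1, h2⟩ := ih (by omega)
        refine ⟨h2 hi, fun h3 => ?_⟩
        by_contra hcon
        have h4 := block_eq hT hD hi (Nat.succ_ne_zero i) (h2 hi)
        rw [Nat.add_sub_cancel, if_pos h1, if_neg (fun h => hcon h.2), if_pos hE1] at h4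
        unfold kz at h4
        push_cast at h4
        have h5 : ((i : ℤ) + 3) * ((D : ℤ) - i - 2) = 0 := by linear_combination -h4
        rcases mul_eq_zero.1 h5 with h6 | h6
        · omega
        · omega
    exact hne (key (D - 1) (by omega)).1
  · -- the possible elements
    have key : ∀ i, i < D → i ≠ 0 → Eqv A i → (i = 2 ∧ Eqv A 3 ∧ 3 < D) ∨
        (i + 3 = D ∧ Eqv A (i - 1) ∧ i - 1 ≠ 0) := by
      intro i hi hi0 hE
      have hi1 : i ≠ 1 := by
        rintro rfl
        exact hE1 hE
      have hiD : i ≠ D - 1 := by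
        rintro rfl
        exact hne hE
      have h4 := block_eq hT hD hi hi0 hE
      rw [if_neg hE1, hk0, mul_zero, zero_sub] at h4
      obtain ⟨l, rfl⟩ : ∃ l, i = l + 1 := ⟨i - 1, by omega⟩
      rw [Nat.add_sub_cancel] at h4 ⊢
      by_cases ha : Eqv A l <;> by_cases hb : l + 1 + 1 < D ∧ Eqv A (l + 1 + 1)
      · exfalso
        rw [if_pos ha, if_pos hb] at h4
        unfold kz at h4
        push_cast at h4
        have h5 : (D : ℤ) = 1 := by linarith
        omega
      · right
        rw [if_pos ha, if_neg hb] at h4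
        unfold kz at h4
        push_cast at h4
        have h5 : ((l : ℤ) + 1) * ((D : ℤ) - l - 4) = 0 := by linear_combination -h4
        refine ⟨?_, ha, by omega⟩
        rcases mul_eq_zero.1 h5 with h6 | h6
        · omega
        · omega
      · left
        rw [if_neg ha, if_pos hb] at h4
        unfold kz at h4
        push_cast at h4
        have h5 : ((l : ℤ) - 1) * ((D : ℤ) - l - 2) = 0 := by linear_combination -h4
        rcases mul_eq_zero.1 h5 with h6 | h6
        · have h7 : l = 1 := by omega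
          subst h7
          exact ⟨rfl, hb.2, hb.1⟩
        · exfalso
          omega
      · exfalso
        rw [if_neg ha, if_neg hb] at h4
        unfold kz at h4
        push_cast at h4
        have h5 : (2 * ((l : ℤ) + 1)) * ((D : ℤ) - l - 2) = 0 := by linear_combination -h4
        rcases mul_eq_zero.1 h5 with h6 | h6
        · omega
        · omega
    by_cases hex : ∃ i, i < D ∧ i ≠ 0 ∧ Eqv A i
    · right
      obtain ⟨i, hi, hi0, hE⟩ := hex
      rcases key i hi hi0 hE with ⟨rfl, h3, h3D⟩ | ⟨hiD, h1, h2⟩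
      · rcases key 3 h3D (by norm_num) h3 with ⟨h4, -⟩ | ⟨h4, h5, -⟩
        · omega
        · exact ⟨by omega, hE, h3⟩
      · rcases key (i - 1) (by omega) h2 h1 with ⟨h4, h5, -⟩ | ⟨h4, -⟩
        · have h6 : i = 3 := by omega
          subst h6
          exact ⟨by omega, h1, hE⟩
        · omega
    · left
      push Not at hex
      intro i hi hE
      by_contra hi0
      exact hex i hi hi0 hE

end

/-- reversal of the chain -/
def rv (D i : ℕ) : ℕ := if i < D then D - 1 - i else i

/-- the reversed algebra -/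
def revAlg (D : ℕ) (A : Subalgebra K (ℕ → K)) : Subalgebra K (ℕ → K) where
  carrier := {r | (fun i => r (rv D i)) ∈ A}
  mul_mem' := fun {a b} ha hb => A.mul_mem (x := fun i => a (rv D i)) (y := fun i => b (rv D i)) ha hb
  add_mem' := fun {a b} ha hb => A.add_mem (x := fun i => a (rv D i)) (y := fun i => b (rv D i)) ha hb
  algebraMap_mem' := fun c => A.algebraMap_mem c

theorem mem_revAlg {D : ℕ} {A : Subalgebra K (ℕ → K)} {r : ℕ → K} :
    r ∈ revAlg D A ↔ (fun i => r (rv D i)) ∈ A := Iff.rfl

theorem rv_lt {D i : ℕ} (hi : i < D) : rv D i = D - 1 - i := if_pos hi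

theorem rv_rv (D i : ℕ) : rv D (rv D i) = i := by
  unfold rv
  split_ifs <;> omega

section

variable {D : ℕ} {A : Subalgebra K (ℕ → K)} (hT : ∀ r ∈ A, tp D r ∈ A)
  (hc : ∀ r ∈ A, ∀ r' : ℕ → K, (∀ i, i < D → r i = r' i) → r' ∈ A)

include hc in
theorem revAlg_congr : ∀ r ∈ revAlg D A, ∀ r' : ℕ → K, (∀ i, i < D → r i = r' i) →
    r' ∈ revAlg D A := by
  intro r hr r' h
  refine hc _ hr _ fun i hi => h _ ?_
  rw [rv_lt hi]
  omega

include hT hc in
theorem revAlg_tp : ∀ r ∈ revAlg D A, tp D r ∈ revAlg D A := by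
  intro r hr
  refine hc _ (hT _ hr) _ fun i hi => ?_
  change (if i = 0 then 0 else kap K D (i - 1) * r (rv D (i - 1))) +
    kap K D (i + 1) * r (rv D (i + 1)) - 2 * (kap K D i * r (rv D i)) = tp D r (rv D i)
  rw [rv_lt hi]
  unfold tp
  rw [kap_rev hi]
  have h1 : (if i = 0 then 0 else kap K D (i - 1) * r (rv D (i - 1))) =
      kap K D (D - 1 - i + 1) * r (D - 1 - i + 1) := by
    by_cases h0 : i = 0
    · rw [if_pos h0, h0, show D - 1 - 0 + 1 = D by omega, kap_top, zero_mul]
    · rw [if_neg h0, rv_lt (show i - 1 < D by omega), ← kap_rev (show i - 1 < D by omega),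
        show D - 1 - (i - 1) = D - 1 - i + 1 by omega]
  have h2 : kap K D (i + 1) * r (rv D (i + 1)) =
      if D - 1 - i = 0 then 0 else kap K D (D - 1 - i - 1) * r (D - 1 - i - 1) := by
    by_cases h0 : D - 1 - i = 0
    · rw [if_pos h0, show i + 1 = D by omega, kap_top, zero_mul]
    · rw [if_neg h0, rv_lt (show i + 1 < D by omega), ← kap_rev (show i + 1 < D by omega),
        show D - 1 - (i + 1) = D - 1 - i - 1 by omega]
  rw [h1, h2]
  ring

/-- the indicator function of `j` -/
def dlt (K : Type*) [Field K] (j i : ℕ) : K := if i = j then 1 else 0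

include hT hc in
/-- from the first point to all points -/
theorem all_of_zero (h0 : dlt K 0 ∈ A) (j : ℕ) (hj : j < D) : dlt K j ∈ A := by
  have key : ∀ j, j < D → dlt K j ∈ A ∧ (j + 1 < D → dlt K (j + 1) ∈ A) := by
    intro j
    induction j with
    | zero =>
      intro hD
      refine ⟨h0, fun h1 => ?_⟩
      have h2 := A.add_mem (hT _ h0) (A.smul_mem h0 (2 * kap K D 0))
      have h3 : kap K D 0 • dlt K (0 + 1) ∈ A := by
        refine hc _ h2 _ fun i hi => ?_
        rw [Pi.add_apply, Pi.smul_apply, Pi.smul_apply, smul_eq_mul, smul_eq_mul]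
        unfold tp dlt
        by_cases hi0 : i = 0
        · subst hi0
          rw [if_pos rfl, if_neg (show ¬ 0 + 1 = 0 by omega), if_pos rfl,
            if_neg (show ¬ 0 = 0 + 1 by omega)]
          ring
        · rw [if_neg hi0, if_neg (show ¬ i + 1 = 0 by omega), if_neg hi0]
          by_cases hi1 : i = 0 + 1
          · subst hi1
            rw [if_pos rfl, if_pos rfl]
            ring
          · rw [if_neg (show ¬ i - 1 = 0 by omega), if_neg hi1]
            ring
      have h4 := A.smul_mem h3 (kap K D 0)⁻¹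
      rwa [smul_smul, inv_mul_cancel₀ (kap_ne hD), one_smul] at h4
    | succ j ih =>
      intro hj
      obtain ⟨h1, h2⟩ := ih (by omega)
      have h2 := h2 hj
      refine ⟨h2, fun h3 => ?_⟩
      have h4 := A.sub_mem (A.add_mem (hT _ h2) (A.smul_mem h2 (2 * kap K D (j + 1))))
        (A.smul_mem h1 (kap K D (j + 1)))
      have h5 : kap K D (j + 1) • dlt K (j + 1 + 1) ∈ A := by
        refine hc _ h4 _ fun i hi => ?_
        rw [Pi.sub_apply, Pi.add_apply, Pi.smul_apply, Pi.smul_apply, Pi.smul_apply, smul_eq_mul,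
          smul_eq_mul, smul_eq_mul]
        unfold tp dlt
        by_cases a1 : i = j
        · subst a1
          rw [if_pos rfl, if_neg (show ¬ i = i + 1 by omega),
            if_neg (show ¬ i = i + 1 + 1 by omega), if_pos rfl,
            if_neg (show ¬ i - 1 = i + 1 by omega), mul_zero, ite_self]
          ring
        rw [if_neg (show ¬ i + 1 = j + 1 by omega), if_neg a1]
        by_cases a2 : i = j + 1
        · subst a2
          rw [if_neg (show ¬ j + 1 = 0 by omega), if_neg (show ¬ j + 1 - 1 = j + 1 by omega),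
            if_pos rfl, if_neg (show ¬ j + 1 = j + 1 + 1 by omega)]
          ring
        rw [if_neg a2]
        by_cases a3 : i = j + 1 + 1
        · subst a3
          rw [if_neg (show ¬ j + 1 + 1 = 0 by omega),
            if_pos (show j + 1 + 1 - 1 = j + 1 by omega), if_pos rfl,
            show j + 1 + 1 - 1 = j + 1 by omega]
          ring
        rw [if_neg a3, if_neg (show ¬ i - 1 = j + 1 by omega), mul_zero, ite_self]
        ring
      have h6 := A.smul_mem h5 (kap K D (j + 1))⁻¹
      rwa [smul_smul, inv_mul_cancel₀ (kap_ne hj), one_smul] at h6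
  exact (key j hj).1

include hT hc in
/-- **Chains.** If some function in `A` is not symmetric, then `A` contains all functions. -/
theorem chain_all (h : ∃ r ∈ A, ∃ i, i < D ∧ r i ≠ r (D - 1 - i)) (j : ℕ) (hj : j < D) :
    dlt K j ∈ A := by
  classical
  obtain ⟨r, hr, hne⟩ := ends_ne D A hT h
  have hD : 0 < D := by omega
  have hE : ¬ Eqv A (D - 1) := fun h1 => hne (h1 r hr).symm
  have hE' : ¬ Eqv (revAlg D A) (D - 1) := by
    intro h1
    apply hne
    have h2 : (fun i => r (rv D i)) ∈ revAlg D A := by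
      rw [mem_revAlg]
      simp only [rv_rv]
      exact hr
    have h3 := h1 _ h2
    simp only [rv_lt (show D - 1 < D by omega), rv_lt hD] at h3
    rw [show D - 1 - (D - 1) = 0 by omega] at h3
    exact h3
  have single : ∀ {A' : Subalgebra K (ℕ → K)},
      (∀ r ∈ A', ∀ r' : ℕ → K, (∀ i, i < D → r i = r' i) → r' ∈ A') →
      (∀ i, i < D → Eqv A' i → i = 0) → dlt K 0 ∈ A' := by
    intro A' hc' h1
    obtain ⟨b, hb, hb'⟩ := exists_idem D (A := A')
    refine hc' b hb _ fun i hi => ?_
    rw [hb' i hi]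
    unfold dlt
    by_cases h2 : i = 0
    · rw [if_pos h2, if_pos]
      rw [h2]
      exact fun _ _ => rfl
    · rw [if_neg h2, if_neg fun h3 => h2 (h1 i hi h3)]
  rcases block_zero hT hE with h1 | ⟨h1, h2, h3⟩
  · exact all_of_zero hT hc (single hc h1) j hj
  · rcases block_zero (revAlg_tp hT hc) hE' with h4 | ⟨-, h5, h6⟩
    · have h7 := all_of_zero (revAlg_tp hT hc) (revAlg_congr hc)
        (single (revAlg_congr hc) h4) (D - 1 - j) (by omega)
      rw [mem_revAlg] at h7
      refine hc _ h7 _ fun i hi => ?_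
      rw [rv_lt hi]
      unfold dlt
      by_cases h8 : i = j
      · rw [if_pos h8, if_pos (by omega)]
      · rw [if_neg h8, if_neg (by omega)]
    · exfalso
      subst h1
      apply hne
      have hr' : (fun i => r (rv 6 i)) ∈ revAlg 6 A := by
        rw [mem_revAlg]
        simp only [rv_rv]
        exact hr
      have h7 := h5 _ hr'
      have h8 := h2 r hr
      have h9 := h3 r hr
      simp only [rv_lt (show 2 < 6 by norm_num), rv_lt (show 0 < 6 by norm_num)] at h7
      norm_num at h7
      norm_num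
      rw [← h7, ← h9]

end

end Pool.Agent.Helper2.GLM
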