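import Pool.Agent.Helper2.GLM.Wt
import Pool.Agent.Helper2.MU.Block

/-!
# The operators `h` and `e` of a place of maximally unipotent monodromy
-/

set_option autoImplicit false
set_option linter.unusedSectionVars false

namespace Pool.Agent.Helper2.GLM

open Module Finset Pool.Agent.Y126.JB Pool.Agent.Y126.MU Pool.Agent.V1141.OF
  Pool.Agent.TH118.SG Pool.Agent.Y130 Pool.Agent.Helper86.LT Pool.Agent.Helper2.MU
  Pool.Agent.TH125.Gal
open Pool.Agent.H204R3.CM Pool.Agent.H204R3.SP Pool.Agent.H204R3.GP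
open Pool.Agent.Y137.MV (IsEqv kills_zero kills_add kills_smul kills_conj eqv_pull dd_kills)

/-- The first eigenvalue from the determinant. -/
theorem det_norm {k : Type} [Field k] [CharZero k] [IsAlgClosed k] {V : Type} [AddCommGroup V] [Module k V]
    [FiniteDimensional k V] (j : k →+* ℂ) {e h f : End k V} {D : ℕ} {w : ℕ → V}
    (hp : Prin e h f D w) (hdim : finrank k V = D + 1) {g : End k V} {lam : k} {q : ℕ}
    (hw : ∀ l, g (w l) = (lam * (q : k) ^ l) • w l) {A : ℝ} (hA : 0 < A) {n : ℤ}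
    (hdet : ‖j (LinearMap.det g)‖ ^ 2 = A ^ (n * (finrank k V : ℤ))) :
    ‖j lam‖ ^ 2 * (q : ℝ) ^ D = A ^ n := by
  classical
  obtain ⟨b, hb⟩ := hp.exists_basis hdim
  have h1 : LinearMap.det g = ∏ x : Fin (D + 1), (lam * (q : k) ^ (x : ℕ)) := by
    rw [← LinearMap.det_toMatrix b, ← Matrix.det_diagonal]
    congr 1
    ext x y
    rw [LinearMap.toMatrix_apply, hb, hw, ← hb, map_smul, Finsupp.smul_apply, Basis.repr_self,
      Finsupp.single_apply, Matrix.diagonal_apply, smul_eq_mul]
    by_cases hxy : x = y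
    · rw [if_pos hxy, if_pos hxy.symm, mul_one, hxy]
    · rw [if_neg hxy, if_neg (Ne.symm hxy), mul_zero]
  have h2 : ‖j (LinearMap.det g)‖ ^ 2 = (‖j lam‖ ^ 2 * (q : ℝ) ^ D) ^ (D + 1) := by
    rw [h1, Fin.prod_univ_eq_prod_range (fun x => lam * (q : k) ^ x) (D + 1), map_prod, norm_prod,
      ← Finset.prod_pow]
    have h3 : ∀ x ∈ range (D + 1), ‖j (lam * (q : k) ^ x)‖ ^ 2 =
        ‖j lam‖ ^ 2 * ((q : ℝ) ^ 2) ^ x := by
      intro x _
      rw [map_mul, map_pow, norm_mul, norm_pow, map_natCast, Complex.norm_natCast, mul_pow,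
        ← pow_mul, ← pow_mul, mul_comm x 2]
    rw [Finset.prod_congr rfl h3, Finset.prod_mul_distrib, Finset.prod_const, card_range,
      Finset.prod_pow_eq_pow_sum, mul_pow, ← pow_mul (q : ℝ) 2, ← pow_mul (q : ℝ) D]
    congr 2
    have h4 := Finset.sum_range_id_mul_two (D + 1)
    rw [Nat.add_sub_cancel] at h4
    rw [mul_comm 2, h4, mul_comm]
  have h3 : (‖j lam‖ ^ 2 * (q : ℝ) ^ D) ^ (D + 1) = (A ^ n) ^ (D + 1) := by
    rw [← h2, hdet, hdim, zpow_mul, zpow_natCast]
  exact (pow_left_inj₀ (by positivity) (by positivity) (Nat.succ_ne_zero D)).1 h3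

section fam

variable {k : Type} [Field k] [CharZero k] [IsAlgClosed k] {I : Type} [Fintype I]
  [DecidableEq I] {V : I → Type} [∀ i, AddCommGroup (V i)] [∀ i, Module k (V i)]
  [∀ i, FiniteDimensional k (V i)] {M : Type} [AddCommGroup M] [Module k M]
  [FiniteDimensional k M] {Γ : Type} [Group Γ] (ρ : ∀ i, Representation k Γ (V i))
  (τ : Representation k Γ M) (χ : Γ →* k) (wt : I → ℤ) (j : k →+* ℂ) (m : ℤ)

variable {D : ℕ} {i : I} {e h f : End k (V i)} {w : ℕ → V i}

/-- **The operator `h` kills the components of equivariant maps.** -/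
theorem h_memA (hp : Prin e h f D w) (hdim : finrank k (V i) = D + 1) {F φ₀ : Γ}
    (hF : ‖j (χ F)‖ ≠ 1)
    (hV : ∀ i a, Module.End.HasEigenvalue (ρ i F) a → ‖j a‖ ^ 2 = ‖j (χ F)‖ ^ wt i)
    (hM : ∀ a, Module.End.HasEigenvalue (τ F) a → ‖j a‖ ^ 2 = ‖j (χ F)‖ ^ m)
    (hV' : ∀ i', i' ≠ i → ∀ a, Module.End.HasEigenvalue (ρ i' φ₀) a →
      ‖j a‖ ^ 2 = ‖j (χ φ₀)‖ ^ wt i')
    (hM' : ∀ a, Module.End.HasEigenvalue (τ φ₀) a → ‖j a‖ ^ 2 = ‖j (χ φ₀)‖ ^ m)
    {lam : k} {q : ℕ} (hq : 2 ≤ q) (hlam0 : lam ≠ 0)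
    (hw : ∀ l, ρ i φ₀ (w l) = (lam * (q : k) ^ l) • w l)
    (hlam : ‖j lam‖ ^ 2 * (q : ℝ) ^ D = ‖j (χ φ₀)‖ ^ wt i) : h ∈ lieA ρ τ i := by
  classical
  intro κ _ _ φ l hφ
  have hpos : 0 < ‖j (χ φ₀)‖ := chi_pos χ j
  have hq0 : (0 : ℝ) < q := Nat.cast_pos.2 (by omega)
  have hqk : (q : k) ≠ 0 := Nat.cast_ne_zero.2 (by omega)
  have key : ∀ i', ∃ (ι ι' : Type) (_ : Fintype ι) (_ : Fintype ι') (b : Basis ι k (V i'))
      (b' : Basis ι' k (Dual k (V i'))) (β : ι ⊕ ι' → k) (n : ι ⊕ ι' → ℤ),
      (∀ x, b.prod b' x ∈ Module.End.maxGenEigenspace (dbl (ρ i') φ₀) (β x)) ∧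
      (∀ x, ‖j (β x)‖ ^ 2 = ‖j (χ φ₀)‖ ^ sg (wt i') (Sum.isLeft x) * (q : ℝ) ^ n x) ∧
      ∀ x, ih i h (LinearMap.single k (fun i => V i × Dual k (V i)) i' (b.prod b' x)) =
        ((n x : ℤ) : k) • LinearMap.single k (fun i => V i × Dual k (V i)) i' (b.prod b' x) := by
    intro i'
    by_cases hi : i' = i
    · subst hi
      obtain ⟨b, hb⟩ := hp.exists_basis hdim
      have hnorm : ∀ x : ℕ, ‖j (lam * (q : k) ^ x)‖ ^ 2 =
          ‖j (χ φ₀)‖ ^ wt i' * (q : ℝ) ^ (2 * (x : ℤ) - D) := by
        intro x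
        rw [← hlam, map_mul, map_pow, norm_mul, norm_pow, map_natCast, Complex.norm_natCast,
          mul_pow, mul_assoc]
        congr 1
        rw [← zpow_natCast (q : ℝ) D, ← zpow_add₀ hq0.ne', ← pow_mul, ← zpow_natCast]
        congr 1
        push_cast
        ring
      refine ⟨Fin (D + 1), Fin (D + 1), inferInstance, inferInstance, b, b.dualBasis,
        Sum.elim (fun x => lam * (q : k) ^ (x : ℕ)) (fun x => (lam * (q : k) ^ (x : ℕ))⁻¹),
        Sum.elim (fun x => 2 * (x : ℕ) - D) (fun x => -(2 * (x : ℕ) - D)), ?_, ?_, ?_⟩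
      · rintro (x | x)
        · rw [prod_inl]
          refine inl_gen (ρ i') (mem_gen.2 ⟨1, ?_⟩)
          rw [pow_one, LinearMap.sub_apply, hb, hw, Module.algebraMap_end_apply, Sum.elim_inl,
            sub_self]
        · rw [prod_inr]
          refine inr_gen (ρ i') (mem_gen.2 ⟨1, ?_⟩)
          rw [pow_one, LinearMap.sub_apply, Module.algebraMap_end_apply, Sum.elim_inr, sub_eq_zero]
          refine b.ext fun y => ?_
          rw [LinearMap.dualMap_apply, LinearMap.smul_apply]
          have h1 : ρ i' φ₀⁻¹ (b y) = (lam * (q : k) ^ (y : ℕ))⁻¹ • b y := by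
            have h2 : ρ i' φ₀⁻¹ (ρ i' φ₀ (b y)) = b y := by
              rw [← Module.End.mul_apply, ← map_mul, inv_mul_cancel, map_one,
                Module.End.one_apply]
            rw [hb, hw, map_smul] at h2
            have h3 : lam * (q : k) ^ (y : ℕ) ≠ 0 := mul_ne_zero hlam0 (pow_ne_zero _ hqk)
            rw [hb]
            nth_rw 2 [← h2]
            rw [smul_smul, inv_mul_cancel₀ h3, one_smul]
          rw [h1, map_smul]
          by_cases hxy : y = x
          · rw [hxy]
          · rw [Basis.dualBasis_apply, Basis.repr_self, Finsupp.single_apply, if_neg hxy,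
              smul_zero, smul_zero]
      · rintro (x | x)
        · exact hnorm x
        · change ‖j (lam * (q : k) ^ (x : ℕ))⁻¹‖ ^ 2 = ‖j (χ φ₀)‖ ^ (-wt i') *
            (q : ℝ) ^ (-(2 * ((x : ℕ) : ℤ) - D))
          rw [map_inv₀, norm_inv, inv_pow, hnorm, mul_inv, zpow_neg, zpow_neg]
      · rintro (x | x)
        · rw [prod_inl, Sum.elim_inl]
          change io (V := fun i => V i × Dual k (V i)) k i' (hat h) _ = _
          rw [io_apply]
          have h1 : (LinearMap.single k (fun i => V i × Dual k (V i)) i' (b x, 0)) i' =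
              (b x, 0) := Pi.single_eq_same _ _
          rw [h1, hat_apply, map_zero, neg_zero, hb, hp.h_w, ← map_smul, Prod.smul_mk, smul_zero]
          congr 3
          push_cast
          ring
        · rw [prod_inr, Sum.elim_inr]
          change io (V := fun i => V i × Dual k (V i)) k i' (hat h) _ = _
          rw [io_apply]
          have h1 : (LinearMap.single k (fun i => V i × Dual k (V i)) i' (0, b.dualBasis x)) i' =
              (0, b.dualBasis x) := Pi.single_eq_same _ _
          rw [h1, hat_apply, map_zero, ← map_smul, Prod.smul_mk, smul_zero]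
          congr 2
          refine b.ext fun y => ?_
          rw [LinearMap.neg_apply, LinearMap.dualMap_apply, LinearMap.smul_apply, hb, hp.h_w,
            map_smul, ← hb, Basis.dualBasis_apply, Basis.repr_self, Finsupp.single_apply]
          by_cases hxy : y = x
          · rw [if_pos hxy, hxy, smul_eq_mul, smul_eq_mul, mul_one, mul_one]
            push_cast
            ring
          · rw [if_neg hxy, smul_zero, smul_zero, neg_zero]
    · obtain ⟨ι, ι', hι, hι', b, b', β, hb, hβ⟩ := exists_dblBasis (ρ i') j φ₀ (hV' i' hi)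
      refine ⟨ι, ι', hι, hι', b, b', β, fun _ => 0, hb, fun x => ?_, fun x => ?_⟩
      · rw [zpow_zero, mul_one]
        exact hβ x
      · have h1 : (LinearMap.single k (fun i => V i × Dual k (V i)) i' (b.prod b' x)) i = 0 :=
          Pi.single_eq_of_ne (Ne.symm hi) _
        change io (V := fun i => V i × Dual k (V i)) k i (hat h) _ = _
        rw [io_apply, h1, map_zero, map_zero, Int.cast_zero, zero_smul]
  choose ι ι' _ _ b b' β n hb hβ hn using key
  have hE : ∀ x : Σ i, ι i ⊕ ι' i, (Pi.basis fun i => (b i).prod (b' i)) x =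
      LinearMap.single k (fun i => V i × Dual k (V i)) x.1 ((b x.1).prod (b' x.1) x.2) :=
    fun x => by
      rw [Pi.basis_apply]
      rfl
  refine kills_of_basis (Pi.basis fun i => (b i).prod (b' i)) _ _ fun K => ?_
  have h1 : ∀ s, (l.compMultilinearMap φ) (Function.update
      (fun s => (Pi.basis fun i => (b i).prod (b' i)) (K s)) s
      (ih i h ((Pi.basis fun i => (b i).prod (b' i)) (K s)))) =
      ((n (K s).1 (K s).2 : ℤ) : k) *
        l (φ (fun s => (Pi.basis fun i => (b i).prod (b' i)) (K s))) := by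
    intro s
    have h2 : ih i h ((Pi.basis fun i => (b i).prod (b' i)) (K s)) =
        ((n (K s).1 (K s).2 : ℤ) : k) • (Pi.basis fun i => (b i).prod (b' i)) (K s) := by
      rw [hE]
      exact hn _ _
    rw [h2, MultilinearMap.map_update_smul, smul_eq_mul,
      Function.update_eq_self s (fun s => (Pi.basis fun i => (b i).prod (b' i)) (K s))]
    rfl
  rw [Finset.sum_congr rfl fun s _ => h1 s, ← Finset.sum_mul]
  by_cases h0 : φ (fun s => (Pi.basis fun i => (b i).prod (b' i)) (K s)) = 0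
  · rw [h0, map_zero, mul_zero]
  · have h3 := wt_sumA ρ τ χ wt j m hF hV hM hφ (fun s => (K s).1)
      (fun s => Sum.isLeft (K s).2) (fun s => (Pi.basis fun i => (b i).prod (b' i)) (K s))
      (fun s => by
        rw [hE]
        refine ⟨fun i' hi' => Pi.single_eq_of_ne hi' _, fun hs => ?_, fun hs => ?_⟩
        · have h2 : (LinearMap.single k (fun i => V i × Dual k (V i)) (K s).1
              ((b (K s).1).prod (b' (K s).1) (K s).2)) (K s).1 =
              (b (K s).1).prod (b' (K s).1) (K s).2 := Pi.single_eq_same _ _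
          rw [h2]
          rcases h6 : (K s).2 with x | x
          · exact Basis.prod_apply_inl_snd _ _ x
          · rw [h6, Sum.isLeft_inr] at hs
            exact absurd hs Bool.false_ne_true
        · have h2 : (LinearMap.single k (fun i => V i × Dual k (V i)) (K s).1
              ((b (K s).1).prod (b' (K s).1) (K s).2)) (K s).1 =
              (b (K s).1).prod (b' (K s).1) (K s).2 := Pi.single_eq_same _ _
          rw [h2]
          rcases h6 : (K s).2 with x | x
          · rw [h6, Sum.isLeft_inl] at hs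
            exact absurd hs.symm Bool.false_ne_true
          · exact Basis.prod_apply_inr_fst _ _ x) h0
    have h2 : φ (fun s => LinearMap.single k (fun i => V i × Dual k (V i)) (K s).1
        ((b (K s).1).prod (b' (K s).1) (K s).2)) ≠ 0 := by
      simpa only [hE] using h0
    obtain ⟨a, ha, h4⟩ := norm_eig (ρ := RR ρ) (τ := τ) j
      (fun x : Σ i, ι i ⊕ ι' i => LinearMap.single k (fun i => V i × Dual k (V i)) x.1
        ((b x.1).prod (b' x.1) x.2)) (fun x => β x.1 x.2) φ₀
      (fun x => single_gen (V := fun i => V i × Dual k (V i)) (fun i => dbl (ρ i)) (hb x.1 x.2))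
      hφ K h2
    have h5 := hM' a ha
    rw [h4, ← Finset.prod_pow, Finset.prod_congr rfl fun s _ => hβ (K s).1 (K s).2,
      Finset.prod_mul_distrib, prod_zpow_sum _ hpos.ne', h3, prod_zpow_sum _ hq0.ne'] at h5
    have h7 : (q : ℝ) ^ (∑ s, n (K s).1 (K s).2) = 1 :=
      mul_left_cancel₀ (zpow_ne_zero _ hpos.ne') (h5.trans (mul_one _).symm)
    have h8 : ∑ s, n (K s).1 (K s).2 = 0 := by
      refine zpow_right_injective₀ hq0 ?_ (h7.trans (zpow_zero _).symm)
      have h9 : (2 : ℝ) ≤ q := by exact_mod_cast hq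
      linarith
    have h9 : ∑ s, ((n (K s).1 (K s).2 : ℤ) : k) = 0 := by
      rw [← Int.cast_sum, h8, Int.cast_zero]
    rw [h9, zero_mul]

end fam

end Pool.Agent.Helper2.GLM
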