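import Pool.Agent.Helper2.GLM.Kill

/-!
# The logarithm of a unipotent element
-/

set_option autoImplicit false
set_option linter.unusedSectionVars false

namespace Pool.Agent.Helper2.GLM

open Module Finset Pool.Agent.Y126.JB Pool.Agent.Y126.MU Pool.Agent.V1141.OF
  Pool.Agent.TH118.SG Pool.Agent.Y130 Pool.Agent.Helper86.LT Pool.Agent.Helper2.MU
  Pool.Agent.TH125.Gal
open Pool.Agent.H204R3.CM Pool.Agent.H204R3.SP Pool.Agent.H204R3.GP
open Pool.Agent.Y137.MV (IsEqv kills_zero kills_add kills_smul kills_conj eqv_pull dd_kills)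

section one

variable {k : Type} [Field k] {V V' : Type} [AddCommGroup V] [Module k V] [AddCommGroup V']
  [Module k V']

theorem lg_comm (φ : V →ₗ[k] V') (X : End k V) (Y : End k V') (h : ∀ x, Y (φ x) = φ (X x)) (n : ℕ)
    (x : V) : lg k Y n (φ x) = φ (lg k X n x) := by
  have h1 : ∀ (i : ℕ) (x : V), (Y ^ i) (φ x) = φ ((X ^ i) x) := by
    intro i
    induction i with
    | zero => exact fun _ => rfl
    | succ i ih =>
      intro x
      rw [pow_succ, pow_succ, Module.End.mul_apply, Module.End.mul_apply, h, ih]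
  rw [lg, Al, lg, Al, LinearMap.sum_apply, LinearMap.sum_apply, map_sum]
  refine Finset.sum_congr rfl fun i _ => ?_
  rw [LinearMap.smul_apply, LinearMap.smul_apply, map_smul, h1]

variable {Γ : Type} [Group Γ] {ρ : Representation k Γ V}

theorem inv_nil {γ : Γ} {n : ℕ} (hn : (ρ γ - 1) ^ n = 0) : (ρ γ⁻¹ - 1) ^ n = 0 := by
  have h0 : ρ γ⁻¹ * ρ γ = 1 := by rw [← map_mul, inv_mul_cancel, map_one]
  have h0' : ρ γ * ρ γ⁻¹ = 1 := by rw [← map_mul, mul_inv_cancel, map_one]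
  have h1 : ρ γ⁻¹ - 1 = -(ρ γ⁻¹) * (ρ γ - 1) := by
    rw [mul_sub, neg_mul, h0, mul_one]
    abel
  have h2 : Commute (-(ρ γ⁻¹)) (ρ γ - 1) := by
    change -(ρ γ⁻¹) * (ρ γ - 1) = (ρ γ - 1) * -(ρ γ⁻¹)
    rw [mul_sub, sub_mul, neg_mul, mul_neg, h0, h0', mul_one, one_mul]
  rw [h1, h2.mul_pow, hn, mul_zero]

theorem dbl_pow_apply {γ : Γ} (n : ℕ) (v : V) (ξ : Dual k V) :
    ((dbl ρ γ - 1) ^ n) (v, ξ) = (((ρ γ - 1) ^ n) v, ξ ∘ₗ ((ρ γ⁻¹ - 1) ^ n)) := by
  induction n generalizing v ξ with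
  | zero => rfl
  | succ n ih =>
    rw [pow_succ, Module.End.mul_apply, LinearMap.sub_apply, Module.End.one_apply, dbl_apply]
    have h1 : ((ρ γ v, (ρ γ⁻¹).dualMap ξ) : V × Dual k V) - (v, ξ) =
        ((ρ γ - 1) v, ξ ∘ₗ (ρ γ⁻¹ - 1)) := by
      refine Prod.ext rfl ?_
      refine LinearMap.ext fun x => ?_
      change ξ (ρ γ⁻¹ x) - ξ x = ξ (ρ γ⁻¹ x - x)
      rw [map_sub]
    rw [h1, ih, pow_succ, Module.End.mul_apply]
    refine Prod.ext rfl ?_
    rw [pow_succ', LinearMap.comp_assoc]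
    rfl

theorem dbl_nil {γ : Γ} {n : ℕ} (hn : (ρ γ - 1) ^ n = 0) : (dbl ρ γ - 1) ^ n = 0 := by
  refine LinearMap.ext fun x => ?_
  obtain ⟨v, ξ⟩ := x
  rw [dbl_pow_apply, hn, inv_nil hn, LinearMap.comp_zero]
  rfl

/-- the natural form on `V × Vᵛ` -/
def nat (k V : Type) [Field k] [AddCommGroup V] [Module k V] :
    (V × Dual k V) →ₗ[k] (V × Dual k V) →ₗ[k] k :=
  LinearMap.mk₂ k (fun x y => x.2 y.1 + y.2 x.1)
    (fun x x' y => by
      simp only [Prod.snd_add, Prod.fst_add, LinearMap.add_apply, map_add]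
      ring)
    (fun c x y => by
      simp only [Prod.smul_snd, Prod.smul_fst, LinearMap.smul_apply, map_smul, smul_eq_mul]
      ring)
    (fun x y y' => by
      simp only [Prod.snd_add, Prod.fst_add, LinearMap.add_apply, map_add]
      ring)
    (fun c x y => by
      simp only [Prod.smul_snd, Prod.smul_fst, LinearMap.smul_apply, map_smul, smul_eq_mul]
      ring)

theorem nat_apply (x y : V × Dual k V) : nat k V x y = x.2 y.1 + y.2 x.1 := rfl

theorem nat_inv (γ : Γ) (x y : V × Dual k V) : nat k V (dbl ρ γ x) (dbl ρ γ y) = nat k V x y := by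
  have h0 : ∀ v, ρ γ⁻¹ (ρ γ v) = v := fun v => by
    rw [← Module.End.mul_apply, ← map_mul, inv_mul_cancel, map_one, Module.End.one_apply]
  rw [nat_apply, nat_apply, dbl_apply, dbl_apply]
  change x.2 (ρ γ⁻¹ (ρ γ y.1)) + y.2 (ρ γ⁻¹ (ρ γ x.1)) = _
  rw [h0, h0]

end one

variable {k : Type} [Field k] [CharZero k] [IsAlgClosed k]

theorem lg_hat {V : Type} [AddCommGroup V] [Module k V] [FiniteDimensional k V] {Γ : Type}
    [Group Γ] {ρ : Representation k Γ V} {γ : Γ} {n : ℕ} (hn : (ρ γ - 1) ^ n = 0) :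
    lg k (dbl ρ γ - 1) n = hat (lg k (ρ γ - 1) n) := by
  have h1 : ∀ v : V, lg k (dbl ρ γ - 1) n (v, 0) = (lg k (ρ γ - 1) n v, 0) := by
    intro v
    refine lg_comm (LinearMap.inl k V (Dual k V)) (ρ γ - 1) (dbl ρ γ - 1) (fun x => ?_) n v
    rw [LinearMap.sub_apply, Module.End.one_apply, LinearMap.inl_apply, dbl_apply, map_zero,
      Prod.mk_sub_mk, sub_self]
    rfl
  have h2 : ∀ ξ : Dual k V, lg k (dbl ρ γ - 1) n (0, ξ) =
      (0, lg k ((ρ γ⁻¹).dualMap - 1 : End k (Dual k V)) n ξ) := by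
    intro ξ
    refine lg_comm (LinearMap.inr k V (Dual k V)) ((ρ γ⁻¹).dualMap - 1) (dbl ρ γ - 1)
      (fun x => ?_) n ξ
    rw [LinearMap.sub_apply, Module.End.one_apply, LinearMap.inr_apply, dbl_apply, map_zero,
      Prod.mk_sub_mk, sub_self]
    rfl
  have h3 := (lg_mem (B := nat k V) (ρ := dbl ρ) (σ := (1 : Γ →* (k →ₗ[k] k))) (S := Fin 0)
      (g := γ) (dbl_nil hn) (nat_inv γ) rfl).1
  refine LinearMap.ext fun x => ?_
  obtain ⟨v, ξ⟩ := x
  have h4 : ((v, ξ) : V × Dual k V) = (v, 0) + (0, ξ) := by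
    rw [Prod.mk_add_mk, add_zero, zero_add]
  rw [h4, map_add, map_add, h1, h2, hat_apply, hat_apply, map_zero, map_zero, neg_zero]
  congr 2
  refine LinearMap.ext fun u => ?_
  have h5 := h3 (u, 0) (0, ξ)
  rw [h1, h2, nat_apply, nat_apply] at h5
  rw [LinearMap.neg_apply, LinearMap.dualMap_apply]
  simp only [LinearMap.zero_apply, zero_add] at h5
  linear_combination h5

variable {I : Type} [Fintype I]
  [DecidableEq I] {V : I → Type} [∀ i, AddCommGroup (V i)] [∀ i, Module k (V i)]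
  [∀ i, FiniteDimensional k (V i)] {M : Type} [AddCommGroup M] [Module k M]
  [FiniteDimensional k M] {Γ : Type} [Group Γ] (ρ : ∀ i, Representation k Γ (V i))
  (τ : Representation k Γ M)

/-- The logarithm of a unipotent element which acts trivially on the other spaces. -/
theorem lgA_mem {i : I} {γ : Γ} {n : ℕ} (hn : (ρ i γ - 1) ^ (n + 1) = 0)
    (hγ : ∀ i', i' ≠ i → ρ i' γ = 1) (hτ : τ γ = 1) :
    lg k (ρ i γ - 1) (n + 1) ∈ lieA ρ τ i := by
  have hsum : RR ρ γ - 1 = io (V := fun i => V i × Dual k (V i)) k i (dbl (ρ i) γ - 1) := by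
    refine LinearMap.ext fun v => funext fun i' => ?_
    rw [LinearMap.sub_apply, Pi.sub_apply, sumRep_apply, Module.End.one_apply, io_apply,
      LinearMap.single_apply]
    by_cases h : i' = i
    · subst h
      rw [Pi.single_eq_same, LinearMap.sub_apply, Module.End.one_apply]
    · rw [Pi.single_eq_of_ne h, dbl_apply]
      have h1 : ρ i' γ⁻¹ = 1 := by
        have h2 : ρ i' γ * ρ i' γ⁻¹ = 1 := by rw [← map_mul, mul_inv_cancel, map_one]
        rwa [hγ i' h, one_mul] at h2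
      rw [hγ i' h, h1, Module.End.one_apply, sub_eq_zero]
      rfl
  have hu : (RR ρ γ - 1) ^ (n + 1) = 0 := by
    rw [hsum, ← io_pow (V := fun i => V i × Dual k (V i)), dbl_nil hn, io_zero]
  intro κ _ _ φ l hφ
  obtain ⟨Δ, hΔ, h1⟩ := hφ
  obtain ⟨N, hN, hgN⟩ := exists_pow hΔ γ
  have h2 : Kill (lg k (RR ρ γ - 1) (n + 1)) φ := by
    refine lg_kill φ hu ?_
    refine Set.infinite_of_injective_forall_mem (f := fun l : ℕ => N * l) ?_ ?_
    · intro l l' hl
      exact Nat.eq_of_mul_eq_mul_left hN hl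
    · intro l v
      have h3 : γ ^ (N * l) ∈ Δ := by
        rw [pow_mul]
        exact Subgroup.pow_mem _ hgN l
      have h4 := h1 _ h3 v
      rw [map_pow, map_pow, hτ, one_pow] at h4
      exact h4
  have h5 : ih i (lg k (ρ i γ - 1) (n + 1)) = lg k (RR ρ γ - 1) (n + 1) := by
    change io (V := fun i => V i × Dual k (V i)) k i (hat (lg k (ρ i γ - 1) (n + 1))) = _
    rw [← lg_hat hn, io_lg (V := fun i => V i × Dual k (V i)), ← hsum]
  rw [h5]
  intro v
  have h3 := congrArg l (h2 v)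
  rw [map_sum, map_zero] at h3
  exact h3

end Pool.Agent.Helper2.GLM
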