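import Pool.Agent.Helper86.LT.Form
import Pool.Agent.Helper86.LT.Lie
import Pool.Agent.Helper2.MU.Wt

/-!
# Weights, for representations and their duals
-/

set_option autoImplicit false
set_option linter.unusedSectionVars false

namespace Pool.Agent.Helper2.GLM

open Module Finset Pool.Agent.Y126.JB Pool.Agent.Y126.MU Pool.Agent.V1141.OF
  Pool.Agent.TH118.SG Pool.Agent.Y130 Pool.Agent.Helper86.LT Pool.Agent.Helper2.MU
open Pool.Agent.H204R3.CM Pool.Agent.H204R3.SP Pool.Agent.H204R3.GP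
open Pool.Agent.Y137.MV (IsEqv kills_zero kills_add kills_smul kills_conj eqv_pull dd_kills)

section dual

variable {k : Type} [Field k] {V : Type} [AddCommGroup V] [Module k V]

theorem dual_eig [FiniteDimensional k V] {g : End k V} {a : k}
    (h : Module.End.HasEigenvalue (g.dualMap : End k (Dual k V)) a) :
    Module.End.HasEigenvalue g a := by
  by_contra hcon
  obtain ⟨ξ, hξ⟩ := h.exists_hasEigenvector
  have h1 : Function.Injective (g - algebraMap k (End k V) a) := by
    rw [← LinearMap.ker_eq_bot, LinearMap.ker_eq_bot']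
    intro x hx
    by_contra hx0
    apply hcon
    refine Module.End.hasEigenvalue_of_hasEigenvector (x := x) ⟨?_, hx0⟩
    rw [Module.End.mem_eigenspace_iff]
    rw [LinearMap.sub_apply, Module.algebraMap_end_apply, sub_eq_zero] at hx
    exact hx
  have h2 := LinearMap.injective_iff_surjective.1 h1
  apply hξ.2
  refine LinearMap.ext fun v => ?_
  obtain ⟨x, rfl⟩ := h2 v
  have h3 := LinearMap.congr_fun hξ.apply_eq_smul x
  rw [LinearMap.dualMap_apply, LinearMap.smul_apply] at h3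
  rw [LinearMap.sub_apply, Module.algebraMap_end_apply, map_sub, map_smul, h3, sub_self,
    LinearMap.zero_apply]

theorem inv_eig {Γ : Type} [Group Γ] {ρ : Representation k Γ V} {F : Γ} {a : k}
    (h : Module.End.HasEigenvalue (ρ F⁻¹) a) : a ≠ 0 ∧ Module.End.HasEigenvalue (ρ F) a⁻¹ := by
  obtain ⟨x, hx⟩ := h.exists_hasEigenvector
  have h1 := hx.apply_eq_smul
  have h2 : ρ F (ρ F⁻¹ x) = x := by
    rw [← Module.End.mul_apply, ← map_mul, mul_inv_cancel, map_one, Module.End.one_apply]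
  rw [h1, map_smul] at h2
  have ha : a ≠ 0 := by
    rintro rfl
    rw [zero_smul] at h2
    exact hx.2 h2.symm
  refine ⟨ha, Module.End.hasEigenvalue_of_hasEigenvector (x := x) ⟨?_, hx.2⟩⟩
  rw [Module.End.mem_eigenspace_iff]
  nth_rw 2 [← h2]
  rw [smul_smul, inv_mul_cancel₀ ha, one_smul]

/-- the weight of a vector of a space or of its dual -/
def sg (n : ℤ) : Bool → ℤ
  | true => n
  | false => -n

/-- the vectors of `V` and of the dual space -/
def InP {I : Type} {V : I → Type} [∀ i, AddCommGroup (V i)] [∀ i, Module k (V i)]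
    (i : I) (s : Bool) (u : HH k V) : Prop :=
  (∀ i', i' ≠ i → u i' = 0) ∧ (s = true → (u i).2 = 0) ∧ (s = false → (u i).1 = 0)

end dual

section basis

variable {k : Type} [Field k] [CharZero k] [IsAlgClosed k] {V : Type} [AddCommGroup V]
  [Module k V] [FiniteDimensional k V] {Γ : Type} [Group Γ] (ρ : Representation k Γ V)

theorem inl_gen {F : Γ} {β : k} {u : V} (hu : u ∈ Module.End.maxGenEigenspace (ρ F) β) :
    ((u, 0) : V × Dual k V) ∈ Module.End.maxGenEigenspace (dbl ρ F) β :=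
  gen_map (f := (ρ F : End k V)) (f' := (dbl ρ F : End k (V × Dual k V)))
    (φ := LinearMap.inl k V (Dual k V)) (fun x => by
      rw [LinearMap.inl_apply, LinearMap.inl_apply, dbl_apply, map_zero]) hu

theorem inr_gen {F : Γ} {β : k} {u : Dual k V}
    (hu : u ∈ Module.End.maxGenEigenspace ((ρ F⁻¹).dualMap : End k (Dual k V)) β) :
    ((0, u) : V × Dual k V) ∈ Module.End.maxGenEigenspace (dbl ρ F) β :=
  gen_map (f := ((ρ F⁻¹).dualMap : End k (Dual k V))) (f' := (dbl ρ F : End k (V × Dual k V)))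
    (φ := LinearMap.inr k V (Dual k V)) (fun x => by
      rw [LinearMap.inr_apply, LinearMap.inr_apply, dbl_apply, map_zero]) hu

omit [CharZero k] [IsAlgClosed k] [FiniteDimensional k V] in
theorem prod_inl {ι ι' : Type} (b : Basis ι k V) (b' : Basis ι' k (Dual k V)) (x : ι) :
    b.prod b' (Sum.inl x) = (b x, 0) :=
  Prod.ext (Basis.prod_apply_inl_fst b b' x) (Basis.prod_apply_inl_snd b b' x)

omit [CharZero k] [IsAlgClosed k] [FiniteDimensional k V] in
theorem prod_inr {ι ι' : Type} (b : Basis ι k V) (b' : Basis ι' k (Dual k V)) (x : ι') :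
    b.prod b' (Sum.inr x) = (0, b' x) :=
  Prod.ext (Basis.prod_apply_inr_fst b b' x) (Basis.prod_apply_inr_snd b b' x)

variable (j : k →+* ℂ)

/-- A basis of generalized eigenvectors. -/
theorem exists_dblBasis (G : Γ) {A : ℝ} {n : ℤ}
    (hV : ∀ a, Module.End.HasEigenvalue (ρ G) a → ‖j a‖ ^ 2 = A ^ n) :
    ∃ (ι ι' : Type) (_ : Fintype ι) (_ : Fintype ι') (b : Basis ι k V)
      (b' : Basis ι' k (Dual k V)) (β : ι ⊕ ι' → k),
      (∀ x, b.prod b' x ∈ Module.End.maxGenEigenspace (dbl ρ G) (β x)) ∧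
        ∀ x, ‖j (β x)‖ ^ 2 = A ^ sg n (Sum.isLeft x) := by
  obtain ⟨ι, hι, b, β, hb⟩ := exists_genBasis (ρ G : End k V)
  obtain ⟨ι', hι', b', β', hb'⟩ := exists_genBasis ((ρ G⁻¹).dualMap : End k (Dual k V))
  refine ⟨ι, ι', hι, hι', b, b', Sum.elim β β', ?_, ?_⟩
  · rintro (x | x)
    · rw [prod_inl]
      exact inl_gen ρ (hb x)
    · rw [prod_inr]
      exact inr_gen ρ (hb' x)
  · rintro (x | x)
    · refine hV _ ?_
      obtain ⟨y, hy0, hy⟩ := isEig_of_gen (b.ne_zero x) (hb x)
      exact Module.End.hasEigenvalue_of_hasEigenvector ⟨Module.End.mem_eigenspace_iff.2 hy, hy0⟩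
    · obtain ⟨y, hy0, hy⟩ := isEig_of_gen (b'.ne_zero x) (hb' x)
      obtain ⟨h0, h1⟩ := inv_eig (dual_eig (Module.End.hasEigenvalue_of_hasEigenvector
        ⟨Module.End.mem_eigenspace_iff.2 hy, hy0⟩))
      have h2 := hV _ h1
      rw [map_inv₀, norm_inv, inv_pow] at h2
      change ‖j (β' x)‖ ^ 2 = A ^ (-n)
      rw [zpow_neg, ← h2, inv_inv]

end basis

section fam

variable {k : Type} [Field k] [CharZero k] [IsAlgClosed k] {I : Type} [Fintype I]
  [DecidableEq I] {V : I → Type} [∀ i, AddCommGroup (V i)] [∀ i, Module k (V i)]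
  [∀ i, FiniteDimensional k (V i)] {M : Type} [AddCommGroup M] [Module k M]
  [FiniteDimensional k M] {Γ : Type} [Group Γ] (ρ : ∀ i, Representation k Γ (V i))
  (τ : Representation k Γ M) (χ : Γ →* k) (wt : I → ℤ) (j : k →+* ℂ) (m : ℤ)

/-- a nonzero value on the basis -/
theorem exists_basis_ne {H : Type} [AddCommGroup H] [Module k H] {B : Type} [Fintype B]
    (E : Basis B k H) {κ : Type} [Fintype κ] [DecidableEq κ]
    (φ : MultilinearMap k (fun _ : κ => H) M) (u : κ → H) (hu : φ u ≠ 0) :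
    ∃ K : κ → B, (∀ l, E.repr (u l) (K l) ≠ 0) ∧ φ (fun l => E (K l)) ≠ 0 := by
  classical
  by_contra hcon
  push Not at hcon
  apply hu
  have h1 : u = fun l => ∑ x, E.repr (u l) x • E x := funext fun l => (E.sum_repr (u l)).symm
  rw [h1, MultilinearMap.map_sum]
  refine Finset.sum_eq_zero fun K _ => ?_
  rw [MultilinearMap.map_smul_univ]
  by_cases h2 : ∀ l, E.repr (u l) (K l) ≠ 0
  · rw [hcon K h2, smul_zero]
  · push Not at h2
    obtain ⟨l, hl⟩ := h2
    rw [Finset.prod_eq_zero (Finset.mem_univ l) hl, zero_smul]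

theorem chi_pos {F : Γ} : 0 < ‖j (χ F)‖ := by
  have hχ : χ F ≠ 0 := by
    intro h0
    have h4 : χ F * χ F⁻¹ = 1 := by rw [← map_mul, mul_inv_cancel, map_one]
    rw [h0, zero_mul] at h4
    exact zero_ne_one h4
  exact norm_pos_iff.2 ((map_ne_zero j).2 hχ)

theorem prod_zpow_sum {κ : Type} (t : Finset κ) {a : ℝ} (ha : a ≠ 0) (n : κ → ℤ) :
    ∏ s ∈ t, a ^ n s = a ^ (∑ s ∈ t, n s) := by
  classical
  induction t using Finset.induction_on with
  | empty => rw [Finset.sum_empty, Finset.prod_empty, zpow_zero]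
  | insert s t hs ih => rw [Finset.sum_insert hs, Finset.prod_insert hs, zpow_add₀ ha, ih]

/-- The total weight of a nonzero component. -/
theorem wt_sumA {F : Γ} (hF : ‖j (χ F)‖ ≠ 1)
    (hV : ∀ i a, Module.End.HasEigenvalue (ρ i F) a → ‖j a‖ ^ 2 = ‖j (χ F)‖ ^ wt i)
    (hM : ∀ a, Module.End.HasEigenvalue (τ F) a → ‖j a‖ ^ 2 = ‖j (χ F)‖ ^ m)
    {κ : Type} [Fintype κ] [DecidableEq κ] {φ : MultilinearMap k (fun _ : κ => HH k V) M}
    (hφ : IsEqv (RR ρ) τ φ) (c : κ → I) (s : κ → Bool) (u : κ → HH k V)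
    (hc : ∀ l, InP (k := k) (V := V) (c l) (s l) (u l)) (hu : φ u ≠ 0) :
    (∑ l, sg (wt (c l)) (s l)) = m := by
  classical
  choose ι ι' _ _ b b' β hb hβ using fun i => exists_dblBasis (ρ i) j F (hV i)
  obtain ⟨K, hK, hK'⟩ := exists_basis_ne (Pi.basis fun i => (b i).prod (b' i)) φ u hu
  have hE : ∀ x : Σ i, ι i ⊕ ι' i, (Pi.basis fun i => (b i).prod (b' i)) x =
      LinearMap.single k (fun i => V i × Dual k (V i)) x.1 ((b x.1).prod (b' x.1) x.2) :=
    fun x => by
      rw [Pi.basis_apply]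
      rfl
  have hcK : ∀ l, (K l).1 = c l ∧ Sum.isLeft (K l).2 = s l := by
    intro l
    have h1 := hK l
    obtain ⟨h2, h3, h4⟩ := hc l
    rw [Pi.basis_repr] at h1
    have h5 : (K l).1 = c l := by
      by_contra hne
      apply h1
      rw [h2 _ hne, map_zero, Finsupp.zero_apply]
    refine ⟨h5, ?_⟩
    rw [← h5] at h3 h4
    rcases h6 : (K l).2 with x | x
    · rw [h6, Basis.prod_repr_inl] at h1
      rw [Sum.isLeft_inl]
      rcases h7 : s l with _ | _
      · exfalso
        apply h1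
        rw [h4 h7, map_zero, Finsupp.zero_apply]
      · rfl
    · rw [h6, Basis.prod_repr_inr] at h1
      rw [Sum.isLeft_inr]
      rcases h7 : s l with _ | _
      · rfl
      · exfalso
        apply h1
        rw [h3 h7, map_zero, Finsupp.zero_apply]
  obtain ⟨a, ha, h1⟩ := norm_eig (ρ := RR ρ) (τ := τ) j
    (fun x : Σ i, ι i ⊕ ι' i => LinearMap.single k (fun i => V i × Dual k (V i)) x.1
      ((b x.1).prod (b' x.1) x.2)) (fun x => β x.1 x.2) F
    (fun x => single_gen (V := fun i => V i × Dual k (V i)) (fun i => dbl (ρ i)) (hb x.1 x.2)) hφ K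
    (by simpa only [hE] using hK')
  have h2 := hM a ha
  have hpos := chi_pos χ j (F := F)
  rw [h1, ← Finset.prod_pow, Finset.prod_congr rfl fun l _ => hβ (K l).1 (K l).2,
    prod_zpow_sum _ hpos.ne'] at h2
  have h5 := zpow_right_injective₀ hpos hF h2
  rw [← h5]
  refine Finset.sum_congr rfl fun l _ => ?_
  rw [← (hcK l).2, ← (hcK l).1]

end fam

end Pool.Agent.Helper2.GLM
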